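import Pool.Agent.Lib.MP_b875bc_co.EU

set_option autoImplicit false

/-!
# MP_b875bc_co: equal-degree vertices joined by a path of length three, for all orders

For every `N ≥ 5` (odd or even) a graph with `N` vertices and at least `⌊(N² - 1) / 4⌋` edges has two distinct
vertices of the same degree that are joined by a path of length three, with exactly one exception: the
complete bipartite graph with parts of sizes `⌊(N - 1) / 2⌋` and `⌊N / 2⌋ + 1`, which has exactly
`⌊(N² - 1) / 4⌋` edges.  For `N = 2 n + 1` the number is `n² + n` and the graph is `K_{n,n+1}`, so every graph with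
`2 n + 1` vertices and `n² + n + 1` edges has such a pair (Q1).

Proof.  Let `v` be a vertex of maximum degree `D`, `A = N(v)`, `B = V \ A`, `β = |B|`, `x = D - β`.  Assume there is no
such pair.  Paths `y z v y'` show that a vertex `y` of `A` whose degree occurs again in `A` (at `y'`) has no
neighbour in `A` except possibly `y'`; a vertex `b ≠ v` of `B` whose degree occurs in `A` has at most one
neighbour in `A`.  Let `S` be the set of the vertices of `A` whose degree is unique in `A`, `s = |S|`: there are no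
edges between `S` and `A \ S`, so the deficits `D - deg` on `S` are distinct and at least `x + 1 - s`.  Summation of
all degrees gives `x² - 2 s x + 2 def(S) + 2 def(B) + 2 w ≤ c + 2 ε`, `c = 1` (`N` odd), `4` (`N` even), `w ≥ 0` the surplus
of the deficits on `A \ S` over `x`, and `ε = 2` if there is an adjacent pair of vertices of degree `β + 1` in
`A \ S` (then all degrees on `S ∪ B` are distinct), `ε = 0` otherwise.  In each case this leaves only `s = 0`,
`def(B) = 0`, `w = 0`, `x = 1` or `2`.
-/

namespace Pool.Agent.Results.MP_b875bc_co.ExtremalUnique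

open Pool.Agent.Lib.MPb875bc

universe u

/-- There are two distinct vertices of the same degree that are joined by a path of length three. -/
def HasPair {V : Type u} [Fintype V] (G : SimpleGraph V) [DecidableRel G.Adj] : Prop :=
  ∃ x₁ x₂ : V, x₁ ≠ x₂ ∧ G.degree x₁ = G.degree x₂ ∧ ∃ p : G.Walk x₁ x₂, p.IsPath ∧ p.length = 3

theorem hasPair_of {V : Type u} [Fintype V] {G : SimpleGraph V} [DecidableRel G.Adj]
    (h : ¬ EU.NP G) : HasPair G := by
  unfold EU.NP at h
  push Not at h
  obtain ⟨x, y, v, x', hxy, hyv, hvx', hxv, hxx', hyx', hdeg⟩ := h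
  refine ⟨x, x', hxx', hdeg,
    SimpleGraph.Walk.cons hxy (SimpleGraph.Walk.cons hyv (SimpleGraph.Walk.cons hvx'
      SimpleGraph.Walk.nil)), ?_, rfl⟩
  simp only [SimpleGraph.Walk.cons_isPath_iff, SimpleGraph.Walk.support_cons,
    SimpleGraph.Walk.support_nil, List.mem_cons, List.not_mem_nil, or_false,
    SimpleGraph.Walk.IsPath.nil, true_and]
  refine ⟨⟨hvx'.ne, ?_⟩, ?_⟩
  · rintro (h | h)
    · exact hyv.ne h
    · exact hyx' h
  · rintro (h | h | h)
    · exact hxy.ne h
    · exact hxv h
    · exact hxx' h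

theorem not_hasPair {V : Type u} [Fintype V] [DecidableEq V] {G : SimpleGraph V} [DecidableRel G.Adj]
    {a b : ℕ} (hab : a ≠ b) (e : G ≃g completeBipartiteGraph (Fin a) (Fin b)) : ¬ HasPair G := by
  rintro ⟨x₁, x₂, -, hd, p, -, hp⟩
  match p, hp with
  | SimpleGraph.Walk.cons h1 (SimpleGraph.Walk.cons h2 (SimpleGraph.Walk.cons h3
      SimpleGraph.Walk.nil)), _ => exact EU.notPair hab e _ _ _ _ h1 h2 h3 hd

/-- (1) Q1, for every `n ≥ 2`.  (2) For every `N ≥ 5` a graph with `N` vertices and at least `⌊(N² - 1) / 4⌋` edges has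
no two distinct vertices of the same degree joined by a path of length three if and only if it is isomorphic
to the complete bipartite graph with parts of sizes `⌊(N - 1) / 2⌋`, `⌊N / 2⌋ + 1`.  (3) This graph has exactly
`⌊(N² - 1) / 4⌋` edges. -/
theorem result :
    (∀ n : ℕ, 2 ≤ n → ∀ (V : Type u) [Fintype V] [DecidableEq V] (G : SimpleGraph V)
      [DecidableRel G.Adj], Fintype.card V = 2 * n + 1 → n ^ 2 + n + 1 ≤ G.edgeFinset.card →
        HasPair G) ∧
    (∀ N : ℕ, 5 ≤ N → ∀ (V : Type u) [Fintype V] [DecidableEq V] (G : SimpleGraph V)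
      [DecidableRel G.Adj], Fintype.card V = N → (N ^ 2 - 1) / 4 ≤ G.edgeFinset.card →
        (¬ HasPair G ↔
          Nonempty (G ≃g completeBipartiteGraph (Fin ((N - 1) / 2)) (Fin (N / 2 + 1))))) ∧
    (∀ N : ℕ, 5 ≤ N →
      (completeBipartiteGraph (Fin ((N - 1) / 2)) (Fin (N / 2 + 1))).edgeSet.ncard =
        (N ^ 2 - 1) / 4) := by
  have h2 : ∀ N : ℕ, 5 ≤ N → ∀ (V : Type u) [Fintype V] [DecidableEq V] (G : SimpleGraph V)
      [DecidableRel G.Adj], Fintype.card V = N → (N ^ 2 - 1) / 4 ≤ G.edgeFinset.card →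
        (¬ HasPair G ↔
          Nonempty (G ≃g completeBipartiteGraph (Fin ((N - 1) / 2)) (Fin (N / 2 + 1)))) := by
    intro N hN V _ _ G _ hV hE
    constructor
    · intro hP
      have hNP : EU.NP G := by
        by_contra h
        exact hP (hasPair_of h)
      obtain ⟨A, hA, hadj⟩ := EU.core G N hN hV hE hNP
      exact EU.isoK G A N hV hA hadj
    · rintro ⟨e⟩
      exact not_hasPair (by omega) e
  have h3 : ∀ N : ℕ, 5 ≤ N →
      (completeBipartiteGraph (Fin ((N - 1) / 2)) (Fin (N / 2 + 1))).edgeSet.ncard =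
        (N ^ 2 - 1) / 4 := fun N hN => by
    rw [EU.edgesK, EU.prodK N (by omega)]
  refine ⟨?_, h2, h3⟩
  intro n hn V _ _ G _ hV hE
  have h4 : ((2 * n + 1) ^ 2 - 1) / 4 = n ^ 2 + n := by
    have h5 : (2 * n + 1) ^ 2 = 4 * (n ^ 2 + n) + 1 := by ring
    omega
  by_contra hP
  obtain ⟨e⟩ := (h2 (2 * n + 1) (by omega) V G hV (by rw [h4]; omega)).1 hP
  have h6 := h3 (2 * n + 1) (by omega)
  have h7 : G.edgeFinset.card = G.edgeSet.ncard := by
    rw [← SimpleGraph.coe_edgeFinset, Set.ncard_coe_finset]
  have h8 : G.edgeSet.ncard =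
      (completeBipartiteGraph (Fin ((2 * n + 1 - 1) / 2)) (Fin ((2 * n + 1) / 2 + 1))).edgeSet.ncard :=
    Nat.card_congr e.mapEdgeSet
  rw [h7, h8, h6, h4] at hE
  omega

end Pool.Agent.Results.MP_b875bc_co.ExtremalUnique
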